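import Pool.Agent.W544.KF.SDefs

/-! KG-SHU: tensor powers of a tensor product. -/

set_option autoImplicit false
open CategoryTheory MonoidalCategory

namespace Pool.Agent.W95.KG
open Pool.Agent.W544.KF

universe v u

section
variable {D : Type u} [Category.{v} D] [MonoidalCategory D] [SymmetricCategory D]

lemma delta_eq (M N : D) : tensorδ M M N N = tensorμ M N M N := by
  simp [tensorδ, tensorμ, SymmetricCategory.braiding_swap_eq_inv_braiding M N]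

lemma braid (M N : D) : (β_ (M ⊗ N) (M ⊗ N)).hom ≫ tensorμ M N M N =
    tensorμ M N M N ≫ ((β_ M M).hom ⊗ₘ (β_ N N).hom) := by
  have h := SymmetricCategory.tensorμ_braid_swap M N
  rw [← delta_eq]
  calc (β_ (M ⊗ N) (M ⊗ N)).hom ≫ tensorδ M M N N
      = tensorδ M M N N ≫ tensorμ M M N N ≫ (β_ (M ⊗ N) (M ⊗ N)).hom ≫ tensorδ M M N N := by
        rw [tensorδ_tensorμ_assoc]
    _ = tensorδ M M N N ≫ ((β_ M M).hom ⊗ₘ (β_ N N).hom) := by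
        rw [reassoc_of% h, tensorμ_tensorδ, Category.comp_id]

lemma g0 (M N : D) : (β_ (M ⊗ N) (M ⊗ N)).hom ≫
      ((M ⊗ N) ◁ 𝟙 (M ⊗ N) ≫ tensorμ M N M N) =
    ((M ⊗ N) ◁ 𝟙 (M ⊗ N) ≫ tensorμ M N M N) ≫ ((β_ M M).hom ⊗ₘ (β_ N N).hom) := by
  rw [MonoidalCategory.whiskerLeft_id, Category.id_comp, braid]

lemma g2 (M N P Q R : D) (s : P ⟶ P) (a : Q ⟶ Q) (b : R ⟶ R) (t : P ⟶ Q ⊗ R)
    (h : s ≫ t = t ≫ (a ⊗ₘ b)) :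
    (M ⊗ N) ◁ s ≫ ((M ⊗ N) ◁ t ≫ tensorμ M N Q R) =
    ((M ⊗ N) ◁ t ≫ tensorμ M N Q R) ≫ (M ◁ a ⊗ₘ N ◁ b) := by
  have h1 := tensorμ_natural_right M N a b
  rw [← MonoidalCategory.whiskerLeft_comp_assoc, h, MonoidalCategory.whiskerLeft_comp,
    Category.assoc, Category.assoc, h1]

lemma g1 (M N P Q R : D) (t : P ⟶ Q ⊗ R) :
    ((α_ (M ⊗ N) (M ⊗ N) P).inv ≫ (β_ (M ⊗ N) (M ⊗ N)).hom ▷ P ≫
        (α_ (M ⊗ N) (M ⊗ N) P).hom) ≫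
      ((M ⊗ N) ◁ ((M ⊗ N) ◁ t ≫ tensorμ M N Q R) ≫ tensorμ M N (M ⊗ Q) (N ⊗ R)) =
    ((M ⊗ N) ◁ ((M ⊗ N) ◁ t ≫ tensorμ M N Q R) ≫ tensorμ M N (M ⊗ Q) (N ⊗ R)) ≫
      (((α_ M M Q).inv ≫ (β_ M M).hom ▷ Q ≫ (α_ M M Q).hom) ⊗ₘ
        ((α_ N N R).inv ≫ (β_ N N).hom ▷ R ≫ (α_ N N R).hom)) := by
  have hass := tensor_associativity M N M N Q R
  have h2 : (α_ (M ⊗ N) (M ⊗ N) P).hom ≫
      ((M ⊗ N) ◁ ((M ⊗ N) ◁ t ≫ tensorμ M N Q R) ≫ tensorμ M N (M ⊗ Q) (N ⊗ R)) =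
      ((M ⊗ N) ⊗ (M ⊗ N)) ◁ t ≫ tensorμ M N M N ▷ (Q ⊗ R) ≫
        tensorμ (M ⊗ M) (N ⊗ N) Q R ≫ ((α_ M M Q).hom ⊗ₘ (α_ N N R).hom) := by
    rw [hass, MonoidalCategory.whiskerLeft_comp, Category.assoc,
      ← associator_naturality_right_assoc]
  have h3 : ((M ⊗ N) ◁ ((M ⊗ N) ◁ t ≫ tensorμ M N Q R) ≫ tensorμ M N (M ⊗ Q) (N ⊗ R)) =
      (α_ (M ⊗ N) (M ⊗ N) P).inv ≫ ((M ⊗ N) ⊗ (M ⊗ N)) ◁ t ≫ tensorμ M N M N ▷ (Q ⊗ R) ≫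
        tensorμ (M ⊗ M) (N ⊗ N) Q R ≫ ((α_ M M Q).hom ⊗ₘ (α_ N N R).hom) := by
    rw [← h2, Iso.inv_hom_id_assoc]
  have h8 : (β_ (M ⊗ N) (M ⊗ N)).hom ▷ P ≫ ((M ⊗ N) ⊗ (M ⊗ N)) ◁ t =
      ((M ⊗ N) ⊗ (M ⊗ N)) ◁ t ≫ (β_ (M ⊗ N) (M ⊗ N)).hom ▷ (Q ⊗ R) :=
    (whisker_exchange _ _).symm
  have h9 : (β_ (M ⊗ N) (M ⊗ N)).hom ▷ (Q ⊗ R) ≫ tensorμ M N M N ▷ (Q ⊗ R) =
      tensorμ M N M N ▷ (Q ⊗ R) ≫ ((β_ M M).hom ⊗ₘ (β_ N N).hom) ▷ (Q ⊗ R) := by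
    rw [← comp_whiskerRight, braid, comp_whiskerRight]
  have h10 := tensorμ_natural_left (β_ M M).hom (β_ N N).hom Q R
  have h11 : ((β_ M M).hom ▷ Q ⊗ₘ (β_ N N).hom ▷ R) ≫
      ((α_ M M Q).hom ⊗ₘ (α_ N N R).hom) =
      ((α_ M M Q).hom ⊗ₘ (α_ N N R).hom) ≫
        (((α_ M M Q).inv ≫ (β_ M M).hom ▷ Q ≫ (α_ M M Q).hom) ⊗ₘ
        ((α_ N N R).inv ≫ (β_ N N).hom ▷ R ≫ (α_ N N R).hom)) := by
    rw [tensorHom_comp_tensorHom, tensorHom_comp_tensorHom, Iso.hom_inv_id_assoc,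
      Iso.hom_inv_id_assoc]
  rw [Category.assoc, Category.assoc, h2, reassoc_of% h8, reassoc_of% h9, reassoc_of% h10, h11,
    h3]
  simp only [Category.assoc]

/-- the middle interchange as an isomorphism -/
def mu (X₁ X₂ Y₁ Y₂ : D) : (X₁ ⊗ X₂) ⊗ Y₁ ⊗ Y₂ ≅ (X₁ ⊗ Y₁) ⊗ X₂ ⊗ Y₂ where
  hom := tensorμ X₁ X₂ Y₁ Y₂
  inv := tensorδ X₁ X₂ Y₁ Y₂

/-- the shuffle -/
def th (M N : D) : ∀ n, pw (M ⊗ N) n ≅ pw M n ⊗ pw N n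
  | 0 => Iso.refl (M ⊗ N)
  | n + 1 => whiskerLeftIso (M ⊗ N) (th M N n) ≪≫ mu M N (pw M n) (pw N n)

lemma sw_th (M N : D) : ∀ n, sw (M ⊗ N) n ≫ (th M N (n + 1)).hom =
    (th M N (n + 1)).hom ≫ (sw M n ⊗ₘ sw N n)
  | 0 => g0 M N
  | n + 1 => g1 M N (pw (M ⊗ N) n) (pw M n) (pw N n) (th M N n).hom

lemma swi_th (M N : D) : ∀ (n : ℕ) (i : Fin n), swi (M ⊗ N) n i ≫ (th M N n).hom =
    (th M N n).hom ≫ (swi M n i ⊗ₘ swi N n i)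
  | 0, i => i.elim0
  | n + 1, i => by
    refine Fin.cases ?_ (fun j => ?_) i
    · exact sw_th M N n
    · exact g2 M N (pw (M ⊗ N) n) (pw M n) (pw N n) (swi (M ⊗ N) n j) (swi M n j)
        (swi N n j) (th M N n).hom (swi_th M N n j)
end

theorem shuffle : S_shuffle.{v, u} := by
  intro D _ _ _ M N n
  exact ⟨th M N n, swi_th M N n⟩

end Pool.Agent.W95.KG
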